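import Pool.Agent.Q235.CY.Law
import Pool.Agent.Q235.CY.Dwork

/-!
# Primes at which the first slopes of the Newton and of the Hodge polygon of a Calabi-Yau hypersurface agree

`F_m = G + m x₀ ^ (n + 1)` with an arbitrary integral form `G` of degree `n + 1` in the `n + 1` variables `x₀, …, xₙ`. If `F_m = 0` is
smooth modulo `p`, the first slope of the Newton polygon of its middle cohomology is `0` (the first slope of the Hodge polygon) if
and only if `p` does not divide the number `points p F_m` of the zeros of `F_m` in `(ℤ/p)^(n + 1)`.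
-/

set_option autoImplicit false

namespace Pool.Agent.Results.MP_0dad22_ag.CalabiYauFirstSlope

open Finset MvPolynomial
open Pool.Agent.Q235.FD Pool.Agent.Q235.CY

/-- For every `x` and all sets `P` of primes in the family all of whose members are admissible: the number of the primes in `P` at
which the number of the zeros of `F_m` is divisible by `p`, or which divide `Δ(m)`, is at most `|P| / (n + 1)`, up to
`|P| ^ (1 / 2) x ^ δ` (`P` not empty). -/
def FewBad {n D B : ℕ} (δ : ℝ) (θ : Pencil n D B) (x : ℕ) (m : Unit → ℕ) : Prop :=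
  ∀ P ∈ θ.sets.S x, (∀ p ∈ P, Admissible θ p) →
    (number P (fun p => Bad θ p (m ())) : ℝ) ≤ P.card / (n + 1 : ℝ) + Real.sqrt (max 1 P.card) * (x : ℝ) ^ δ

/-- **First slopes of Calabi-Yau hypersurfaces.** (1) For all `n`, `D`, `b ≥ 2`, `δ > 0`, `A` and `B`, `FewBad δ θ x m` holds for
almost all integers `m` obtained by changing a few digits of an arbitrary integer, uniformly in the pencil and in the sets of
primes. (2) For every form `R` in `x₁, …, xₙ` and every integer `c`, all primes which do not divide `c` and at which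
`Δ` is not zero are admissible for the pencil `R(x₁, …, xₙ) - c x₀ ⋯ xₙ + m x₀ ^ (n + 1)`, whose degree is at most `n + 1` if the
degree of `R` is at most `n + 1`. -/
theorem result (n : ℕ) :
    (∀ (D b : ℕ), 2 ≤ b → ∀ δ : ℝ, 0 < δ → ∀ A B : ℕ,
      ForAlmostAll Unit b A (fun (θ : Pencil n D B) x m => FewBad δ θ x m)) ∧
    (∀ (R : MvPolynomial (Fin n) ℤ) (c : ℤ), (R.totalDegree ≤ n + 1 → (dwork R c).totalDegree ≤ n + 1) ∧
      ∀ (D B : ℕ) (θ : Pencil n D B), θ.G = dwork R c → ∀ p : ℕ, p.Prime → ¬ (p : ℤ) ∣ c →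
        θ.Δ.map (Int.castRingHom (ZMod p)) ≠ 0 → Admissible θ p) := by
  refine ⟨fun D b hb δ hδ A B => law n D hb hδ A B, fun R c => ⟨fun hR => dwork_degree R hR c, ?_⟩⟩
  intro D B θ hG p hp hc hΔ
  refine ⟨⟨0, ?_⟩, hΔ⟩
  rw [hG]
  exact dwork_points R c hp hc

end Pool.Agent.Results.MP_0dad22_ag.CalabiYauFirstSlope
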