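import Pool.Agent.Q49.WU.Groups

/-!
# Ordinary primes for summands of motives and cubic hypersurfaces

Let `F` be a number field. Let `M` be the category of André motives over `F`, a semisimple abelian
category with Tate twists `N ↦ N(a)`, and let `g w : M ⥤ M` be the functor `N ↦ Gr^W_w N`, the direct
factor of weight `w`. For a scheme `X` of finite type over `ℚ` let `(D w).H m n X` be the motive
`Gr^W_{w+2m} H^n_c(X_F)`. For smooth projective `Y` the motive `(D w).H 0 n Y` is `h^w(Y_F)` if `n = w`, and
zero for all other `n`.

For a motive `R` let `ord R` be the statement of question Q1 for `R`: there are infinitely many primes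
`𝔭` of `F` such that for every prime `ℓ` with `𝔭 ∤ ℓ` and every embedding `τ` one has
`Newton_τ(Frob_𝔭, R_ℓ) = HP(R_ℓ)`. Let `AllFactors ord N` be the statement `ord R` for all direct factors
`R` of `N`, that is for `R = e N` for all idempotents `e` in `End(N)`. The property `Summand R` says that
`R = e M` for the motives `M` of hypothesis (A) in question Q1.

For the hypothesis `question` (known): for `X = U = Spec F` and smooth projective `Y` over `F` the
hypothesis (A) is satisfied by `M = h^i(Y)`. Conversely, every motive `M` as in (A) is pure, and so it is a
direct factor of `h^w(Y)(a)` for some smooth projective `Y` and some `w` and `a`; and `ord` is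
invariant under Tate twists. Every smooth projective variety over `F` is a union of connected components
of `Y_F` for a smooth projective scheme `Y` over `ℚ`.

For the hypotheses `pure` and `single` (known): the motives `h^w(Y_F)` are pure of weight `w`; the part of
weight `w` of a finite direct sum of Tate twists of motives `h^w(Y_j)` and of Tate motives is, up to
copies of `ℚ(-w/2)`, a direct sum of some of the `h^w(Y_j)`, and so a direct factor of `h^w(Y)` for
the disjoint union `Y` of the `Y_j` and of projective spaces.

If `T(x, y, z) = 1` is a hypersurface with `a` variables `x_p`, the motive `(D w).H (a - 1) n (T = 1)` is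
`Gr^W_{w+2(a-1)} H^n_c(T = 1)`; it contributes to the part of weight `w` of a sum of twists with the twist
`(a - 1)`. So the right hand sides below mean: `ord R` is true for all direct factors `R` of finite direct
sums of motives `Gr^W_{w+2(a-1)} H^n_c(T = 1)(a - 1)` (and of copies of `ℚ(-w/2)` for even `w`).

**Theorem.** (1) For every `w` question Q1 has a positive answer for all direct factors of the motives
`h^w(Y)` of all smooth projective varieties `Y` over `F` if and only if it has a positive answer for all
direct factors of finite direct sums of motives `Gr^W_{w+2(a-1)} H^n_c((X_H)_F)(a - 1)` of the smooth affine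
cubic hypersurfaces `X_H : ∑_{(p, q, r) ∈ H} x_p y_q z_r = 1` of all finite sets `H` of triples, where `a`
is the number of the variables `x_p`.

(2) Question Q1 has a positive answer for all data over `F` if and only if for every `w` it has a positive
answer for these direct factors.
-/

set_option autoImplicit false

open CategoryTheory CategoryTheory.Limits AlgebraicGeometry Pool.Agent.Y116.UV Pool.Agent.Z125.UN
  Pool.Agent.Q193.LT Pool.Agent.Q49.WU

universe v u

namespace Pool.Agent.Results.MP_0dad22_ag.CubicSummands

/-- **Ordinary primes for summands of motives and cubic hypersurfaces.** See the explanations above. -/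
theorem result {M : Type u} [Category.{v} M] [Abelian M] {D : ℤ → WeightData ℚ M}
    (h : ∀ w, IsWMotives (D w)) {g : ℤ → M ⥤ M} {ord Summand : M → Prop}
    (pure : ∀ w n Y, SmoothProj Y → Nonempty ((g w).obj ((D w).H 0 n Y) ≅ (D w).H 0 n Y))
    (single : ∀ w, SingleAt (D w) fun N => AllFactors ord ((g w).obj N))
    (question : (∀ R, Summand R → ord R) ↔
      ∀ w (Y : Sch ℚ), SmoothProj Y → ∀ n, AllFactors ord ((D w).H 0 n Y)) :
    (∀ w, (∀ Y : Sch ℚ, SmoothProj Y → ∀ n, AllFactors ord ((D w).H 0 n Y)) ↔
      SumsAt (D w) (OfGraphsAt (D w)) fun N => AllFactors ord ((g w).obj N)) ∧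
    ((∀ R, Summand R → ord R) ↔
      ∀ w, SumsAt (D w) (OfGraphsAt (D w)) fun N => AllFactors ord ((g w).obj N)) := by
  have key : ∀ w, (∀ Y : Sch ℚ, SmoothProj Y → ∀ n, AllFactors ord ((D w).H 0 n Y)) ↔
      SumsAt (D w) (OfGraphsAt (D w)) fun N => AllFactors ord ((g w).obj N) := by
    intro w
    have hP : Inherits fun N => AllFactors ord ((g w).obj N) :=
      Inherits.map (allFactors_inherits ord) (g w)
    rw [← single_graphs (h w) hP (single w) frac_rat]
    have h1 : ∀ {X Y : M}, (X ≅ Y) → AllFactors ord Y → AllFactors ord X := fun e hY =>
      allFactors_inherits ord e.hom e.inv e.hom_inv_id hY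
    constructor
    · intro h2 Y hY n
      obtain ⟨e⟩ := pure w n Y hY
      exact h1 e (h2 Y hY n)
    · intro h2 Y hY n
      obtain ⟨e⟩ := pure w n Y hY
      exact h1 e.symm (h2 Y hY n)
  exact ⟨key, question.trans (forall_congr' key)⟩

end Pool.Agent.Results.MP_0dad22_ag.CubicSummands
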