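import Pool.Agent.Q115.DU.Gra
import Pool.Agent.Q193.LT.Defs

/-!
# Ordinary primes for summands of motives: one cubic hypersurface for each motive

Let `F` be a number field and `E` the category of André motives over `F`, with the Tate twist
`t N = N(1)`. Let `k` be a subfield of `F`; for a separated scheme `X` of finite type over `k` let
`Mc X` be the geometric motive with compact support of `X_F` (with rational coefficients), and
`Gr w j (Mc X)` the motive `Gr^W_w H_j(X_F)` in `E`, the dual of `Gr^W_{-w} H^j_c(X_F)`. So
`Gr (-i) i (Mc Y) = H_i(Y_F)` for smooth projective `Y`.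

For a motive `R` let `ord R` be the statement of question Q1 for `R`: there are infinitely many
primes `𝔭` of `F` such that for every prime `ℓ` with `𝔭 ∤ ℓ` and every embedding `τ` one has
`Newton_τ(Frob_𝔭, R_ℓ) = HP(R_ℓ)`. The property `Summand R` says that `R = e M` for the motives `M`
of hypothesis (A) in question Q1.

A cubic is a smooth affine hypersurface `Z : T(x, y, z) = 1` of a trilinear form `T` with
coefficients in `S`, where `S = k`, or `k = ℚ` and `S = {0, 1}`.

**Theorem.** (1) For every finite list of smooth schemes `X` over `k` there is ONE cubic `Z` such that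
for every `X` of the list there is an `m` such that `Gr^W_{w+2m} H_j(X)(m)` is a direct factor of
`Gr^W_w H_{j+2m+3}(Z)`, for all `w` and `j`.

(2) For every finite list of motives `R` of question Q1 there is ONE cubic `Z` such that every `R` of
the list is, up to a Tate twist, a direct factor of one of the motives `Gr^W_{3-j} H_j(Z)`.

(3) Question Q1 has a positive answer for all data over `F` if and only if all direct factors of the
motives `Gr^W_{3-j} H_j(Z)` (dually `Gr^W_{j-3} H^j_c(Z)`), for all cubics `Z` and all `j`, are ordinary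
at infinitely many primes.

No direct sums of motives of several cubics and no other weights are necessary. (It is
not known that the property that all direct factors have infinitely many ordinary primes passes to
direct sums, and it has no property two out of three.)
-/

set_option autoImplicit false

open CategoryTheory CategoryTheory.Limits AlgebraicGeometry Pretriangulated
  Pool.Agent.Y116.UV Pool.Agent.Q193.LT Pool.Agent.Q115.DU

namespace Pool.Agent.Results.MP_0dad22_ag.OneCubicForEachMotive

universe v u v' u'

/-- The motives of `GData`, the class `Summand` of the motives `R = e M` of question Q1, and the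
statement `ord R` of the question for `R`. -/
structure OrdData (k : Type) [Field k] (C : Type u) [Category.{v} C] [HasShift C ℤ]
    (E : Type u') [Category.{v'} E] extends GData k C E where
  Summand : E → Prop
  ord : E → Prop

variable {k : Type} [Field k] {C : Type u} [Category.{v} C] [Preadditive C] [HasZeroObject C]
  [HasShift C ℤ] [∀ n : ℤ, (shiftFunctor C n).Additive] [Pretriangulated C]
  {E : Type u'} [Category.{v'} E]

/-- The known properties.

* `graded`: localization triangles and their naturality, affine bundles, zero sections, shifts,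
  Tate twists, affine bundles with affine total space (`IsGData`, `IsTData`, `IsCData`);
* `iso`, `tate`: `ord` depends only on the isomorphism class and is invariant under Tate twists;
* `origin`: the motives `R` of question Q1 are, up to Tate twists, direct factors of the motives
  `H_i(Y_F)` of smooth projective schemes `Y` over `k` (they are pure; a smooth projective variety over
  `F` is a union of connected components of `Y_F`, where `Y` is this variety as a scheme over `k`);
* `pieces`: the direct factors of the motives `Gr^W_w H_j(X_F)` are, up to Tate twists, direct factors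
  of motives `H_i` of smooth projective varieties over `F` (resolution of singularities), so they are
  motives `R` of question Q1 with `X = U = Spec F`. -/
structure IsOrd (D : OrdData k C E) : Prop where
  graded : IsGData D.toGData
  iso : ∀ {M N : E}, Nonempty (M ≅ N) → D.ord M → D.ord N
  tate : ∀ N : E, D.ord (D.t.functor.obj N) ↔ D.ord N
  origin : ∀ R : E, D.Summand R → ∃ (Y : Sch k) (i : ℤ) (a b : ℕ), SmoothProj Y ∧
    IsFactor ((it D.t.functor a).obj R) ((it D.t.functor b).obj ((D.Gr (-i) i).obj (D.Mc Y)))
  pieces : ∀ (X : Sch k) (w j : ℤ) (N : E), FT True X → IsFactor N ((D.Gr w j).obj (D.Mc X)) →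
    ∃ (R : E) (a b : ℕ), D.Summand R ∧
      Nonempty ((it D.t.functor a).obj N ≅ (it D.t.functor b).obj R)

variable {D : OrdData k C E}

lemma ord_it (hD : IsOrd D) (N : E) : ∀ n : ℕ, D.ord ((it D.t.functor n).obj N) ↔ D.ord N
  | 0 => Iff.rfl
  | n + 1 => (hD.tate _).trans (ord_it hD N n)

omit [Preadditive C] [HasZeroObject C] [∀ n : ℤ, (shiftFunctor C n).Additive]
  [Pretriangulated C] in
/-- from a direct factor of `H_i(Y)` to a direct factor of the cubic -/
lemma factor_of {i : ℤ} {a b m : ℕ} {R : E} {Y Z : Sch k}
    (hR : IsFactor ((it D.t.functor a).obj R)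
      ((it D.t.functor b).obj ((D.Gr (-i) i).obj (D.Mc Y))))
    (hY : ∀ w j : ℤ, IsFactor ((it D.t.functor m).obj ((D.Gr (w + 2 * m) j).obj (D.Mc Y)))
        ((D.Gr w (j + 2 * m + 3)).obj (D.Mc Z))) :
    IsFactor ((it D.t.functor (a + m)).obj R)
      ((it D.t.functor b).obj ((D.Gr (3 - (i + 2 * m + 3)) (i + 2 * m + 3)).obj (D.Mc Z))) := by
  have h1 := hY (3 - (i + 2 * m + 3)) i
  have e1 : 3 - (i + 2 * m + 3) + 2 * (m : ℤ) = -i := by ring
  rw [e1] at h1
  have h2 := hR.map (it D.t.functor m)
  rw [it_add, it_add, add_comm b m, ← it_add D.t.functor m _ b] at h2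
  exact h2.trans (h1.map (it D.t.functor b))

/-- **Ordinary primes: one cubic for each motive.** -/
theorem result (hD : IsOrd D) (S : Set k) (hS : S = Set.univ ∨ (Frac k ∧ S = {0, 1})) :
    (∀ L : List (Sch k), (∀ X ∈ L, FT True X ∧ Smooth X.hom) →
      ∃ Z : Sch k, IsCubic S Z ∧ ∀ X ∈ L, ∃ m : ℕ, ∀ w j : ℤ,
        IsFactor ((it D.t.functor m).obj ((D.Gr (w + 2 * m) j).obj (D.Mc X)))
          ((D.Gr w (j + 2 * m + 3)).obj (D.Mc Z))) ∧
    (∀ L : List E, (∀ R ∈ L, D.Summand R) →
      ∃ Z : Sch k, IsCubic S Z ∧ ∀ R ∈ L, ∃ (a b : ℕ) (j : ℤ),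
        IsFactor ((it D.t.functor a).obj R)
          ((it D.t.functor b).obj ((D.Gr (3 - j) j).obj (D.Mc Z)))) ∧
    ((∀ R : E, D.Summand R → D.ord R) ↔
      ∀ Z : Sch k, IsCubic S Z → ∀ (j : ℤ) (N : E),
        IsFactor N ((D.Gr (3 - j) j).obj (D.Mc Z)) → D.ord N) := by
  have h1 := fun (L : List (Sch k)) hL => list_factor hD.graded hS L hL
  have h2 : ∀ L : List E, (∀ R ∈ L, D.Summand R) →
      ∃ Z : Sch k, IsCubic S Z ∧ ∀ R ∈ L, ∃ (a b : ℕ) (j : ℤ),
        IsFactor ((it D.t.functor a).obj R)
          ((it D.t.functor b).obj ((D.Gr (3 - j) j).obj (D.Mc Z))) := by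
    intro L hL
    have key : ∃ L' : List (Sch k), (∀ Y ∈ L', SmoothProj Y) ∧ ∀ R ∈ L, ∃ Y ∈ L',
        ∃ (i : ℤ) (a b : ℕ), IsFactor ((it D.t.functor a).obj R)
          ((it D.t.functor b).obj ((D.Gr (-i) i).obj (D.Mc Y))) := by
      induction L with
      | nil => exact ⟨[], fun Y hY => by simp at hY, fun R hR => by simp at hR⟩
      | cons R L ih =>
        obtain ⟨L', h3, h4⟩ := ih fun R' hR' => hL R' (List.mem_cons_of_mem _ hR')
        obtain ⟨Y, i, a, b, hY, hf⟩ := hD.origin R (hL R List.mem_cons_self)
        refine ⟨Y :: L', fun Y' hY' => ?_, fun R' hR' => ?_⟩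
        · rcases List.mem_cons.1 hY' with rfl | hY'
          · exact hY
          · exact h3 Y' hY'
        · rcases List.mem_cons.1 hR' with rfl | hR'
          · exact ⟨Y, List.mem_cons_self, i, a, b, hf⟩
          · obtain ⟨Y', hY', h5⟩ := h4 R' hR'
            exact ⟨Y', List.mem_cons_of_mem _ hY', h5⟩
    obtain ⟨L', h3, h4⟩ := key
    obtain ⟨Z, hZ, h5⟩ := h1 L' fun Y hY => ⟨(h3 Y hY).ft, (h3 Y hY).smooth⟩
    refine ⟨Z, hZ, fun R hR => ?_⟩
    obtain ⟨Y, hY, i, a, b, hf⟩ := h4 R hR
    obtain ⟨m, hm⟩ := h5 Y hY
    exact ⟨a + m, b, _, factor_of hf hm⟩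
  refine ⟨h1, h2, ?_, ?_⟩
  · intro h Z hZ j N hN
    have hft : FT True Z := by
      obtain ⟨a, b, c, T, -, rfl⟩ := hZ
      exact ft_aff True
    obtain ⟨R, a, b, hR, e⟩ := hD.pieces Z _ j N hft hN
    exact (ord_it hD N a).1 (hD.iso (iso_symm e) ((ord_it hD R b).2 (h R hR)))
  · intro h R hR
    obtain ⟨Z, hZ, h3⟩ := h2 [R] (fun R' hR' => by
      rw [List.mem_singleton.1 hR']
      exact hR)
    obtain ⟨a, b, j, hf⟩ := h3 R (List.mem_singleton.2 rfl)
    -- the factor, twisted back
    obtain ⟨N, ⟨e⟩⟩ : ∃ N : E, Nonempty ((it D.t.functor b).obj N ≅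
        (it D.t.functor a).obj R) := by
      have : ∀ (b : ℕ) (M : E), ∃ N : E, Nonempty ((it D.t.functor b).obj N ≅ M) := by
        intro b
        induction b with
        | zero => exact fun M => ⟨M, ⟨Iso.refl _⟩⟩
        | succ b ih =>
          intro M
          obtain ⟨N, ⟨e⟩⟩ := ih (D.t.inverse.obj M)
          exact ⟨N, ⟨D.t.functor.mapIso e ≪≫ D.t.counitIso.app M⟩⟩
      exact this b _
    have hff : ∀ (b : ℕ) {M N : E} (f : (it D.t.functor b).obj M ⟶ (it D.t.functor b).obj N),
        ∃ g : M ⟶ N, (it D.t.functor b).map g = f := by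
      intro b
      induction b with
      | zero => exact fun f => ⟨f, rfl⟩
      | succ b ih =>
        intro M N f
        obtain ⟨g, hg⟩ := D.t.functor.map_surjective (X := (it D.t.functor b).obj M)
          (Y := (it D.t.functor b).obj N) f
        obtain ⟨g', rfl⟩ := ih g
        exact ⟨g', hg⟩
    have hinj : ∀ (b : ℕ) {M N : E} (f g : M ⟶ N),
        (it D.t.functor b).map f = (it D.t.functor b).map g → f = g := by
      intro b
      induction b with
      | zero => exact fun f g h => h
      | succ b ih =>
        intro M N f g h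
        exact ih f g (D.t.functor.map_injective h)
    have hN : IsFactor N ((D.Gr (3 - j) j).obj (D.Mc Z)) := by
      obtain ⟨s, r, hsr⟩ := (IsFactor.trans (isFactor_of_iso ⟨e⟩) hf)
      obtain ⟨s', rfl⟩ := hff b s
      obtain ⟨r', rfl⟩ := hff b r
      refine ⟨s', r', hinj b _ _ ?_⟩
      rw [CategoryTheory.Functor.map_comp, hsr, CategoryTheory.Functor.map_id]
    exact (ord_it hD R a).1 (hD.iso ⟨e⟩ ((ord_it hD N b).2 (h Z hZ j N hN)))

end Pool.Agent.Results.MP_0dad22_ag.OneCubicForEachMotive
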