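import Pool.Agent.Q148.UP.Main

/-!
# One infinite set of primes for all motives

Let `F` be a number field, `M` the commutative semiring of isomorphism classes of André motives over `F`
(sums and products are direct sums and tensor products); `M` is countable. For a prime `𝔭` of `F` and a
pair `(ℓ, τ)` (a prime number `ℓ` with `𝔭 ∤ ℓ` and an embedding `τ` of the field of algebraic numbers into
`ℚ̄_p`) let `newton 𝔭 (ℓ, τ) R` be the multiset of the numbers `v(τ(α))`, `α` the eigenvalues of
Frobenius on the `ℓ`-adic realization of `R` (for the finitely many primes of bad reduction of `R` the
value does not matter), and `hodge R` the multiset of Hodge–Tate weights; let `eff` be the set of the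
classes of the motives `R = e M` of the question (`M` an André motive with the realizations
`H^k(X, j_!* R^i π_* ℚ_ℓ)` as in hypothesis (A), `e` an idempotent). `Ord 𝔭 R` says that the Newton
polygon and the Hodge–Tate polygon agree for all `ℓ` and `τ`.

The Newton polygons of André motives are not known to be independent of `ℓ` and `τ`, and it is not known
that they lie above the Hodge–Tate polygon. So it is not clear that a direct sum is ordinary at `𝔭` only if
the summands are.

**Theorem.** The following are equivalent:

1. question Q1 has a positive answer over `F`: for every `R = e M` as above there are infinitely many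
   primes `𝔭` such that `R` is ordinary at `𝔭` for all `ℓ` and `τ`;
2. the same for all motives `R` over `F` that are pure of weight zero;
3. every finite set of motives over `F`, of any weights, is simultaneously ordinary at infinitely many
   primes;
4. there is one infinite set `P₀` of primes such that every motive over `F` is ordinary at all but
   finitely many `𝔭 ∈ P₀` (for all `ℓ` and `τ`).
-/

set_option autoImplicit false

open NumberField IsDedekindDomain Pool.Agent.Q148.UP

namespace Pool.Agent.Results.MP_0dad22_ag.UniversalPrimes

/-- **A universal set of primes.** See the explanations above. -/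
theorem result (F : Type) [Field F] [NumberField F] (M : Type) [CommSemiring M] [Countable M]
    (D : SlopeData M (HeightOneSpectrum (𝓞 F))) (h : IsSlope D) :
    List.TFAE [
      ∀ R ∈ D.eff, {𝔭 | Ord D 𝔭 R}.Infinite,
      ∀ R ∈ D.pure 0, {𝔭 | Ord D 𝔭 R}.Infinite,
      ∀ s : Finset M, {𝔭 | ∀ R ∈ s, Ord D 𝔭 R}.Infinite,
      ∃ P₀ : Set (HeightOneSpectrum (𝓞 F)), P₀.Infinite ∧
        ∀ R : M, (P₀ \ {𝔭 | Ord D 𝔭 R}).Finite] :=
  tfae h inferInstance

end Pool.Agent.Results.MP_0dad22_ag.UniversalPrimes
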